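import Pool.Agent.W78.GC.Defs

/-!
Project GC (helper78), task GC-10: many pairs of determinant one with `n` even and with `n` odd.
-/

set_option autoImplicit false

namespace Pool.Agent.W85.GC

open Finset Filter
open Pool.Agent.H376R2.MR
open Pool.Agent.W78.GA
open Pool.Agent.W78.GC

lemma hD : (0 : ℤ) ^ 2 < 4 * 1 := by norm_num

lemma nm01 (z : Qd 0 1) : (nm z : ℤ) = z.re ^ 2 + z.im ^ 2 := by
  rw [nm_cast hD]; ring

lemma even_nm (z : Qd 0 1) : Even (nm z) ↔ (Even z.re ↔ Even z.im) := by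
  rw [← Int.even_coe_nat, nm01, Int.even_add, Int.even_pow, Int.even_pow]
  simp

lemma odd_nm (z : Qd 0 1) : Odd (nm z) ↔ ¬ (Even z.re ↔ Even z.im) := by
  rw [← Nat.not_even_iff_odd, even_nm]

lemma even_dt (z u : Qd 0 1) : Even (dt z u) ↔
    ((Even z.re ∨ Even u.im) ↔ (Even z.im ∨ Even u.re)) := by
  unfold dt
  rw [Int.even_sub, Int.even_mul, Int.even_mul]

lemma even_ip (z u : Qd 0 1) : Even (ip z u) ↔
    ((Even z.re ∨ Even u.re) ↔ (Even z.im ∨ Even u.im)) := by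
  have : ip z u = z.re * u.re + z.im * u.im := by unfold ip; ring
  rw [this, Int.even_add, Int.even_mul, Int.even_mul]

lemma not_even_dt {p p' : Qd 0 1} (h : dt p p' = 1) : ¬ Even (dt p p') := by
  rw [h]; decide

/-- the eight vectors attached to a pair -/
def f8 (i : Fin 8) (e : Qd 0 1 × Qd 0 1) : Qd 0 1 :=
  ![e.1, -e.1, e.2, -e.2, e.1 + e.2, -(e.1 + e.2), e.1 - e.2, -(e.1 - e.2)] i

lemma core (Pr : ℤ → Prop) (s : ℤ) (h : S_SCC col1)
    (hp : ∀ (X : ℝ) (z z' : Qd 0 1), z ∈ cball col1 X → z' ∈ cball col1 X → 0 < dt z z' →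
      gl z ≠ gl z' → ∃ e ∈ EP 0 1 Pr s (4 * X), ∃ q, 0 ≤ dt z q ∧ 0 ≤ dt q z' ∧ q ≠ 0 ∧
      ∃ i, q = f8 i e) :
    ∃ κ : ℝ, 0 < κ ∧ ∃ X₀ : ℝ, ∀ X : ℝ, X₀ ≤ X → κ * X ≤ ((EP 0 1 Pr s X).card : ℝ) := by
  classical
  obtain ⟨ε, hε, X₀, h⟩ := h
  refine ⟨ε / 32, by positivity, 4 * X₀, fun X hX => ?_⟩
  set B : Finset (Qd 0 1) :=
    ((univ : Finset (Fin 8)).biUnion (fun i => (EP 0 1 Pr s X).image (f8 i))).filter (· ≠ 0)
    with hB
  have h1 := h (X / 4) (by linarith) B (by simp [hB]) (by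
    intro z z' hz hz' h1 h2
    obtain ⟨e, he, q, h3, h4, h5, i, h6⟩ := hp (X / 4) z z' hz hz' h1 h2
    have hX4 : 4 * (X / 4) = X := by ring
    rw [hX4] at he
    refine ⟨q, ?_, h3, h4⟩
    rw [hB, mem_filter, mem_biUnion]
    exact ⟨⟨i, mem_univ _, mem_image.2 ⟨e, he, h6.symm⟩⟩, h5⟩)
  have h2 : B.card ≤ 8 * (EP 0 1 Pr s X).card := by
    refine (card_filter_le _ _).trans (card_biUnion_le.trans ?_)
    calc ∑ i : Fin 8, ((EP 0 1 Pr s X).image (f8 i)).card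
        ≤ ∑ i : Fin 8, (EP 0 1 Pr s X).card := sum_le_sum fun i _ => card_image_le
      _ = 8 * (EP 0 1 Pr s X).card := by simp
  have h3 : (B.card : ℝ) ≤ 8 * ((EP 0 1 Pr s X).card : ℝ) := by exact_mod_cast h2
  linarith

lemma mem_EP {Pr : ℤ → Prop} {s : ℤ} {X : ℝ} {e : Qd 0 1 × Qd 0 1} :
    e ∈ EP 0 1 Pr s X ↔ e ∈ dedge 0 1 X ∧ Pr (ip e.1 e.2) ∧ lam (NN e) = s := by
  classical
  simp only [EP, mem_filter]

lemma lam_NN {e : Qd 0 1 × Qd 0 1} (h1 : prim e.1) (h2 : prim e.2) :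
    lam (NN e) = gl e.1 * gl e.2 := by
  unfold NN
  rw [lam_mul (nm_pos hD (prim_ne_zero h1)).ne' (nm_pos hD (prim_ne_zero h2)).ne']
  rfl

lemma pball_mono4 {X : ℝ} {p : Qd 0 1} (h : p ∈ pball 0 1 X) : p ∈ pball 0 1 (4 * X) := by
  rw [mem_pball hD] at h ⊢
  have : (0 : ℝ) ≤ nm p := Nat.cast_nonneg _
  exact ⟨h.1, by linarith [h.2]⟩

lemma ip_even {p p' : Qd 0 1} (h3 : Odd (nm p)) (h4 : Odd (nm p')) (h5 : dt p p' = 1) :
    Even (ip p p') := by
  have h6 := not_even_dt h5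
  rw [even_dt] at h6
  rw [odd_nm] at h3 h4
  rw [even_ip]
  tauto

/-- even `n` -/
lemma mem_even {X : ℝ} {p p' : Qd 0 1} {s : ℤ} (h1 : p ∈ pball 0 1 X) (h2 : p' ∈ pball 0 1 X)
    (h3 : Odd (nm p)) (h4 : Odd (nm p')) (h5 : dt p p' = 1) (hs : gl p * gl p' = s) :
    (p, p') ∈ EP 0 1 (fun n => Even n) s (4 * X) := by
  have hi : Even (ip p p') := ip_even h3 h4 h5
  have h7 := ((mem_pball hD).1 h1).1
  have h8 := ((mem_pball hD).1 h2).1
  rw [mem_EP, mem_dedge]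
  exact ⟨⟨pball_mono4 h1, pball_mono4 h2, h5⟩, hi, (lam_NN h7 h8).trans hs⟩

lemma re_par {p p' : Qd 0 1} (h3 : Odd (nm p)) (h4 : Odd (nm p')) (h5 : dt p p' = 1) :
    Odd p.re ↔ ¬ Odd p'.re := by
  have h6 := not_even_dt h5
  rw [even_dt] at h6
  rw [odd_nm] at h3 h4
  rw [← Int.not_even_iff_odd, ← Int.not_even_iff_odd]
  tauto

lemma nm_sum_le {X : ℝ} {p p' : Qd 0 1} (h1 : (nm p : ℝ) ≤ X) (h2 : (nm p' : ℝ) ≤ X) :
    (nm (p + p') : ℝ) ≤ 4 * X ∧ (nm (p' - p) : ℝ) ≤ 4 * X := by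
  have e1 := nm_castR hD p
  have e2 := nm_castR hD p'
  have e3 := nm_castR hD (p + p')
  have e4 := nm_castR hD (p' - p)
  simp only [QuadraticAlgebra.re_add, QuadraticAlgebra.im_add, QuadraticAlgebra.re_sub,
    QuadraticAlgebra.im_sub, Int.cast_zero, Int.cast_one, Int.cast_add, Int.cast_sub] at e1 e2 e3 e4
  constructor
  · nlinarith [sq_nonneg ((p.re : ℝ) - p'.re), sq_nonneg ((p.im : ℝ) - p'.im)]
  · nlinarith [sq_nonneg ((p.re : ℝ) + p'.re), sq_nonneg ((p.im : ℝ) + p'.im)]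

lemma gl_cases {s : ℤ} (hs : s = 1 ∨ s = -1) (a b w : ℤ) (ha : a = 1 ∨ a = -1)
    (hb : b = 1 ∨ b = -1) (hw : w = 1 ∨ w = -1) (hab : a ≠ b) : a * w = s ∨ w * b = s := by
  rcases ha with rfl | rfl <;> rcases hb with rfl | rfl <;> rcases hw with rfl | rfl <;>
    rcases hs with rfl | rfl <;> simp at hab ⊢

lemma eight_ne {e : Qd 0 1 × Qd 0 1} (h : dt e.1 e.2 = 1) (i : Fin 8) : f8 i e ≠ 0 := by
  intro hz
  have hre : (f8 i e).re = 0 := by rw [hz]; rfl
  have him : (f8 i e).im = 0 := by rw [hz]; rfl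
  unfold dt at h
  fin_cases i <;>
  · simp [f8] at hre him
    first
    | (rw [hre, him] at h; simp at h)
    | (have h1 : e.1.re = -e.2.re := by linarith
       have h2 : e.1.im = -e.2.im := by linarith
       rw [h1, h2] at h; ring_nf at h; omega)
    | (have h1 : e.1.re = e.2.re := by linarith
       have h2 : e.1.im = e.2.im := by linarith
       rw [h1, h2] at h; ring_nf at h; omega)

lemma odd_of_cball {X : ℝ} {z : Qd 0 1} (h : z ∈ cball col1 X) :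
    z ∈ pball 0 1 X ∧ Odd (nm z) ∧ Odd z.re := by
  classical
  simp only [cball, mem_filter] at h
  obtain ⟨h1, h2, h3⟩ := h
  refine ⟨h1, ?_, h2⟩
  rw [odd_nm]
  rw [← Int.not_even_iff_odd] at h2
  tauto

lemma q_fix {e : Qd 0 1 × Qd 0 1} {q : Qd 0 1} (h : q = e.1 ∨ q = -e.1 ∨ q = e.2 ∨ q = -e.2 ∨
    q = e.1 + e.2 ∨ q = -(e.1 + e.2) ∨ q = e.1 - e.2 ∨ q = -(e.1 - e.2)) : ∃ i, q = f8 i e := by
  rcases h with h | h | h | h | h | h | h | h
  · exact ⟨0, h⟩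
  · exact ⟨1, h⟩
  · exact ⟨2, h⟩
  · exact ⟨3, h⟩
  · exact ⟨4, h⟩
  · exact ⟨5, h⟩
  · exact ⟨6, h⟩
  · exact ⟨7, h⟩

theorem edge_even (h : S_SCC col1) (hb : S_BETWE) : S_EDGEP 0 1 (fun n => Even n) := by
  intro s hs
  refine core _ s h fun X z z' hz hz' hd hg => ?_
  obtain ⟨hz1, hz2, hz3⟩ := odd_of_cball hz
  obtain ⟨hz1', hz2', hz3'⟩ := odd_of_cball hz'
  rcases hs with rfl | rfl
  · -- sign one: twist by the parity of the real part
    classical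
    obtain ⟨p, p', q, h1, h2, h3, h4, h5, h6, h7, h8, h9⟩ :=
      hb (fun z => gl z * (if Odd z.re then 1 else -1)) (fun z => by
        simp only [gl_neg, QuadraticAlgebra.re_neg]
        congr 1
        by_cases h : Odd z.re
        · rw [if_pos h, if_pos h.neg]
        · rw [if_neg h, if_neg (fun h' => h (by simpa using h'.neg))]) X z z' hz1 hz1' hz2 hz2' hd
        (by simpa only [if_pos hz3, if_pos hz3', mul_one] using hg)
    have hgl : gl p * gl p' = 1 := by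
      have hr := re_par h3 h4 h5
      by_cases hr1 : Odd p.re
      · have hr2 : ¬ Odd p'.re := hr.1 hr1
        simp only [if_pos hr1, if_neg hr2] at h6
        rcases gl_eq p with h10 | h10 <;> rcases gl_eq p' with h11 | h11 <;>
          rw [h10, h11] at h6 ⊢ <;> simp at h6 ⊢
      · have hr2 : Odd p'.re := by
          by_contra h'
          exact hr1 (hr.2 h')
        simp only [if_neg hr1, if_pos hr2] at h6
        rcases gl_eq p with h10 | h10 <;> rcases gl_eq p' with h11 | h11 <;>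
          rw [h10, h11] at h6 ⊢ <;> simp at h6 ⊢
    obtain ⟨i, hi⟩ := q_fix (e := (p, p')) h9
    have he := mem_even h1 h2 h3 h4 h5 hgl
    refine ⟨(p, p'), he, q, h7, h8, ?_, i, hi⟩
    rw [hi]
    exact eight_ne h5 i
  · obtain ⟨p, p', q, h1, h2, h3, h4, h5, h6, h7, h8, h9⟩ :=
      hb gl (fun z => gl_neg z) X z z' hz1 hz1' hz2 hz2' hd hg
    have hgl : gl p * gl p' = -1 := by
      rcases gl_eq p with h10 | h10 <;> rcases gl_eq p' with h11 | h11 <;>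
          rw [h10, h11] at h6 ⊢ <;> simp at h6 ⊢
    obtain ⟨i, hi⟩ := q_fix (e := (p, p')) h9
    have he := mem_even h1 h2 h3 h4 h5 hgl
    refine ⟨(p, p'), he, q, h7, h8, ?_, i, hi⟩
    rw [hi]
    exact eight_ne h5 i

theorem edge_odd (h : S_SCC col1) (hb : S_BETWE) : S_EDGEP 0 1 (fun n => Odd n) := by
  intro s hs
  refine core _ s h fun X z z' hz hz' hd hg => ?_
  obtain ⟨hz1, hz2, hz3⟩ := odd_of_cball hz
  obtain ⟨hz1', hz2', hz3'⟩ := odd_of_cball hz'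
  obtain ⟨p, p', q, h1, h2, h3, h4, h5, h6, h7, h8, h9⟩ :=
      hb gl (fun z => gl_neg z) X z z' hz1 hz1' hz2 hz2' hd hg
  have hip := ip_even h3 h4 h5
  have n1 := (mem_pball hD).1 h1
  have n2 := (mem_pball hD).1 h2
  obtain ⟨n3, n4⟩ := nm_sum_le n1.2 n2.2
  have o1 : Odd (nm p : ℤ) := by exact_mod_cast h3
  have o2 : Odd (nm p' : ℤ) := by exact_mod_cast h4
  rw [nm01] at o1 o2
  have mk : ∀ a b : Qd 0 1, (nm a : ℝ) ≤ 4 * X → (nm b : ℝ) ≤ 4 * X → dt a b = 1 →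
      Odd (ip a b) → gl a * gl b = s → (a, b) ∈ EP 0 1 (fun n => Odd n) s (4 * X) := by
    intro a b ha hb hab ho hs
    obtain ⟨pa, pb⟩ := prim_of_dt hab
    rw [mem_EP, mem_dedge, mem_pball hD, mem_pball hD]
    exact ⟨⟨⟨pa, ha⟩, ⟨pb, hb⟩, hab⟩, ho, (lam_NN pa pb).trans hs⟩
  have n1' : (nm p : ℝ) ≤ 4 * X := ((mem_pball hD).1 (pball_mono4 h1)).2
  have n2' : (nm p' : ℝ) ≤ 4 * X := ((mem_pball hD).1 (pball_mono4 h2)).2
  have dt1 : dt p (p + p') = 1 := by rw [dt_add_right, h5]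
  have dt2 : dt (p + p') p' = 1 := by rw [dt_add_left, h5]
  have dt3 : dt p (p' - p) = 1 := by
    have : dt p (p' - p) = dt p p' := by
      unfold dt
      simp only [QuadraticAlgebra.re_sub, QuadraticAlgebra.im_sub]; ring
    exact this.trans h5
  have dt4 : dt (p' - p) (-p') = 1 := by
    have : dt (p' - p) (-p') = dt p p' := by
      unfold dt
      simp only [QuadraticAlgebra.re_sub, QuadraticAlgebra.im_sub, QuadraticAlgebra.re_neg,
        QuadraticAlgebra.im_neg]; ring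
    exact this.trans h5
  have ip1 : ip p (p + p') = (p.re ^ 2 + p.im ^ 2) + ip p p' := by
    unfold ip
    simp only [QuadraticAlgebra.re_add, QuadraticAlgebra.im_add]; ring
  have ip2 : ip (p + p') p' = (p'.re ^ 2 + p'.im ^ 2) + ip p p' := by
    unfold ip
    simp only [QuadraticAlgebra.re_add, QuadraticAlgebra.im_add]; ring
  have ip3 : ip p (p' - p) = ip p p' - (p.re ^ 2 + p.im ^ 2) := by
    unfold ip
    simp only [QuadraticAlgebra.re_sub, QuadraticAlgebra.im_sub]; ring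
  have ip4 : ip (p' - p) (-p') = ip p p' - (p'.re ^ 2 + p'.im ^ 2) := by
    unfold ip
    simp only [QuadraticAlgebra.re_sub, QuadraticAlgebra.im_sub, QuadraticAlgebra.re_neg,
      QuadraticAlgebra.im_neg]; ring
  have c1 := gl_cases hs (gl p) (gl p') (gl (p + p')) (gl_eq _) (gl_eq _) (gl_eq _) h6
  have c2 := gl_cases hs (gl p) (gl p') (gl (p' - p)) (gl_eq _) (gl_eq _) (gl_eq _) h6
  -- the two families
  have fam1 : (∃ e ∈ EP 0 1 (fun n => Odd n) s (4 * X), e = (p, p + p') ∨ e = (p + p', p')) := by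
    rcases c1 with c | c
    · exact ⟨_, mk p (p + p') n1' n3 dt1 (by rw [ip1]; exact o1.add_even hip) c, Or.inl rfl⟩
    · exact ⟨_, mk (p + p') p' n3 n2' dt2 (by rw [ip2]; exact o2.add_even hip) c, Or.inr rfl⟩
  have fam2 : (∃ e ∈ EP 0 1 (fun n => Odd n) s (4 * X),
      e = (p, p' - p) ∨ e = (p' - p, -p')) := by
    rcases c2 with c | c
    · exact ⟨_, mk p (p' - p) n1' n4 dt3 (by rw [ip3]; exact hip.sub_odd o1) c, Or.inl rfl⟩
    · exact ⟨_, mk (p' - p) (-p') n4 (by rw [nm_neg]; exact n2') dt4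
        (by rw [ip4]; exact hip.sub_odd o2) (by rw [gl_neg]; exact c), Or.inr rfl⟩
  have key : ∃ e ∈ EP 0 1 (fun n => Odd n) s (4 * X), (q = e.1 ∨ q = -e.1 ∨ q = e.2 ∨ q = -e.2 ∨
    q = e.1 + e.2 ∨ q = -(e.1 + e.2) ∨ q = e.1 - e.2 ∨ q = -(e.1 - e.2)) := by
    rcases h9 with h | h | h | h | h | h | h | h
    · obtain ⟨e, he, rfl | rfl⟩ := fam1
      · exact ⟨_, he, Or.inl h⟩
      · exact ⟨_, he, by right; right; right; right; right; right; left; rw [h]; simp⟩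
    · obtain ⟨e, he, rfl | rfl⟩ := fam1
      · exact ⟨_, he, Or.inr (Or.inl h)⟩
      · exact ⟨_, he, by right; right; right; right; right; right; right; rw [h]; simp⟩
    · obtain ⟨e, he, rfl | rfl⟩ := fam1
      · exact ⟨_, he, by right; right; right; right; right; right; right; rw [h]; simp⟩
      · exact ⟨_, he, Or.inr (Or.inr (Or.inl h))⟩
    · obtain ⟨e, he, rfl | rfl⟩ := fam1
      · exact ⟨_, he, by right; right; right; right; right; right; left; rw [h]; simp⟩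
      · exact ⟨_, he, Or.inr (Or.inr (Or.inr (Or.inl h)))⟩
    · obtain ⟨e, he, rfl | rfl⟩ := fam1
      · exact ⟨_, he, Or.inr (Or.inr (Or.inl h))⟩
      · exact ⟨_, he, Or.inl h⟩
    · obtain ⟨e, he, rfl | rfl⟩ := fam1
      · exact ⟨_, he, Or.inr (Or.inr (Or.inr (Or.inl h)))⟩
      · exact ⟨_, he, Or.inr (Or.inl h)⟩
    · obtain ⟨e, he, rfl | rfl⟩ := fam2
      · exact ⟨_, he, by right; right; right; left; rw [h]; simp⟩
      · exact ⟨_, he, by right; left; rw [h]; simp⟩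
    · obtain ⟨e, he, rfl | rfl⟩ := fam2
      · exact ⟨_, he, by right; right; left; rw [h]; simp⟩
      · exact ⟨_, he, by left; rw [h]; simp⟩
  obtain ⟨e, he, hq⟩ := key
  obtain ⟨i, hi⟩ := q_fix hq
  have hde : dt e.1 e.2 = 1 := (mem_dedge.1 (mem_EP.1 he).1).2.2
  refine ⟨e, he, q, h7, h8, ?_, i, hi⟩
  rw [hi]
  exact eight_ne hde i

theorem edgee (h : S_SCC col1) (hb : S_BETWE) :
    S_EDGEP 0 1 (fun n => Even n) ∧ S_EDGEP 0 1 (fun n => Odd n) :=
  ⟨edge_even h hb, edge_odd h hb⟩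

end Pool.Agent.W85.GC
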